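import Pool.Agent.H.MP_5bc4af_co.helper5.Final

/-!
# Cycle odd-covers of Eulerian graphs: `c₂(G) ≤ Δ(G)/2 + O(Δ(G)^{4/5})`
-/

open Pool.Agent.H.MP_5bc4af.H5

namespace Pool.Agent.Results.MP_5bc4af_co.AsymptoticBound

/-- `D` is the edge set of a cycle in the complete graph on `V`: for some `n` there are `n + 3`
distinct vertices `v 0, …, v (n + 2)`, and the edges are the `v i v (i + 1)` (the index `i + 1` is
taken modulo `n + 3`). -/
def IsCycleEdgeSet {V : Type*} (D : Finset (Sym2 V)) : Prop :=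
  ∃ (n : ℕ) (v : Fin (n + 3) → V), Function.Injective v ∧
    ∀ e, e ∈ D ↔ ∃ i, e = s(v i, v (i + 1))

/-- The list `L` of cycles is a cycle odd-cover of `G`: an unordered pair of vertices is an edge
of `G` if and only if it belongs to an odd number of the cycles of `L`. -/
structure IsCycleOddCover {V : Type*} [DecidableEq V] (G : SimpleGraph V)
    (L : List (Finset (Sym2 V))) : Prop where
  cycle : ∀ D ∈ L, IsCycleEdgeSet D
  odd : ∀ e : Sym2 V, e ∈ G.edgeSet ↔ Odd (L.countP fun D => decide (e ∈ D))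

/-- There is a constant `C` such that every finite simple graph `G` all of whose degrees are even
has a cycle odd-cover with at most `Δ(G)/2 + C Δ(G)^{4/5}` cycles. -/
theorem result : ∃ C : ℝ, ∀ (V : Type*) [Fintype V] [DecidableEq V] (G : SimpleGraph V)
    [DecidableRel G.Adj], (∀ v, Even (G.degree v)) →
    ∃ L : List (Finset (Sym2 V)), IsCycleOddCover G L ∧
      (L.length : ℝ) ≤ (G.maxDegree : ℝ) / 2 + C * (G.maxDegree : ℝ) ^ (4 / 5 : ℝ) := by
  classical
  obtain ⟨C, hC0, hC⟩ := cov_asym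
  refine ⟨C, ?_⟩
  intro V _ _ G _ hG
  set f : Sym2 V → ZMod 2 := fun e => if e ∈ G.edgeSet then 1 else 0 with hf
  have hfe : ∀ e, f e ≠ 0 ↔ e ∈ G.edgeSet := by
    intro e
    rw [hf]
    by_cases h : e ∈ G.edgeSet
    · simp [h]
    · simp [h]
  have hadj : ∀ v w, f s(v, w) = if G.Adj v w then 1 else 0 := by
    intro v w
    rw [hf]
    simp only [SimpleGraph.mem_edgeSet]
  have hdeg : ∀ v, dg f v = G.degree v := by
    intro v
    unfold dg
    rw [← SimpleGraph.card_neighborFinset_eq_degree]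
    congr 1
    ext w
    rw [Finset.mem_filter, SimpleGraph.mem_neighborFinset, hfe, SimpleGraph.mem_edgeSet]
    simp
  have hbd : ∀ v, bd f v = 0 := by
    intro v
    have h1 : bd f v = ((dg f v : ℕ) : ZMod 2) := by
      unfold bd dg
      rw [Finset.card_filter]
      push_cast
      apply Finset.sum_congr rfl
      intro w _
      rw [hadj]
      by_cases h : G.Adj v w
      · simp [h]
      · simp [h]
    rw [h1, hdeg, ZMod.natCast_eq_zero_iff_even]
    exact hG v
  have hk : ∀ v, dg f v ≤ 2 * (G.maxDegree / 2) := by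
    intro v
    rw [hdeg]
    have h1 := G.degree_le_maxDegree v
    obtain ⟨a, ha⟩ := hG v
    omega
  obtain ⟨n, hn, hnb⟩ := hC V f (fun v => by rw [hadj]; simp) hbd _ hk
  obtain ⟨L, hL1, hL2, hL3⟩ := cov_parity hn
  refine ⟨L, ⟨hL2, fun e => ?_⟩, ?_⟩
  · rw [← hfe, hL3]
  · have h1 : (L.length : ℝ) ≤ n := by exact_mod_cast hL1
    have h2 : ((G.maxDegree / 2 : ℕ) : ℝ) ≤ (G.maxDegree : ℝ) / 2 := Nat.cast_div_le
    have h3 : ((G.maxDegree / 2 : ℕ) : ℝ) ^ (4 / 5 : ℝ) ≤ (G.maxDegree : ℝ) ^ (4 / 5 : ℝ) := by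
      apply Real.rpow_le_rpow (by positivity) _ (by norm_num)
      exact_mod_cast Nat.div_le_self _ _
    have h4 := mul_le_mul_of_nonneg_left h3 hC0
    linarith

end Pool.Agent.Results.MP_5bc4af_co.AsymptoticBound
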