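import Pool.Agent.H.MP_5bc4af_co.helper5.Final
import Pool.Agent.H.MP_5bc4af_co.L4.Grp

/-!
# Cycle odd-covers of Cayley graphs
-/

open Pool.Agent.H.MP_5bc4af.H5 Pool.Agent.H.MP_5bc4af.L3 Pool.Agent.H.MP_5bc4af.L4

namespace Pool.Agent.Results.MP_5bc4af_co.CayleyGraphs

/-- `D` is the edge set of a cycle in the complete graph on `V`: for some `n` there are `n + 3`
distinct vertices `v 0, …, v (n + 2)`, and the edges are the `v i v (i + 1)` (the index `i + 1` is
taken modulo `n + 3`). -/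
def IsCycleEdgeSet {V : Type*} (D : Finset (Sym2 V)) : Prop :=
  ∃ (n : ℕ) (v : Fin (n + 3) → V), Function.Injective v ∧
    ∀ e, e ∈ D ↔ ∃ i, e = s(v i, v (i + 1))

/-- The list `L` of cycles is a cycle odd-cover of `G`: an unordered pair of vertices is an edge
of `G` if and only if it belongs to an odd number of the cycles of `L`. -/
structure IsCycleOddCover {V : Type*} [DecidableEq V] (G : SimpleGraph V)
    (L : List (Finset (Sym2 V))) : Prop where
  cycle : ∀ D ∈ L, IsCycleEdgeSet D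
  odd : ∀ e : Sym2 V, e ∈ G.edgeSet ↔ Odd (L.countP fun D => decide (e ∈ D))

/-- `G` is the Cayley graph of the group `Γ` with connection set `S`: `x` and `y` are adjacent if and
only if `y = x s` for some `s ∈ S`. -/
def IsCayley {Γ : Type*} [Group Γ] (S : Finset Γ) (G : SimpleGraph Γ) : Prop :=
  ∀ x y, G.Adj x y ↔ ∃ s ∈ S, y = x * s

/-- Let `m ≥ 1`, let `Γ` be a finite group and `S` a subset of `Γ` closed under inverses all of whose
elements have order at least `80 m`. The Cayley graph of `Γ` with connection set `S` has a cycle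
odd-cover with at most `|S| / 2 + ⌈|S| / (2 m)⌉` cycles. (For `2 m ≥ |S|` this is at most
`|S| / 2 + 1`, and `|S|` is the degree.) -/
theorem result (Γ : Type*) [Group Γ] [Fintype Γ] [DecidableEq Γ] (S : Finset Γ)
    (hS : ∀ s ∈ S, s⁻¹ ∈ S) (m : ℕ) (hm : 1 ≤ m) (hord : ∀ s ∈ S, 80 * m ≤ orderOf s)
    (G : SimpleGraph Γ) (hG : IsCayley S G) :
    ∃ L : List (Finset (Sym2 Γ)), IsCycleOddCover G L ∧
      L.length ≤ S.card / 2 + ⌈(S.card : ℚ) / (2 * m)⌉₊ := by
  classical
  have hpow : ∀ s ∈ S, ∀ k, 0 < k → k < 80 * m → s ^ k ≠ 1 := by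
    intro s hs k hk hk2 h
    have h1 := orderOf_le_of_pow_eq_one hk h
    have h2 := hord s hs
    omega
  have h1 : ∀ s ∈ S, s ≠ 1 := by
    intro s hs h
    exact hpow s hs 1 (by norm_num) (by omega) (by rw [h, one_pow])
  have h2 : ∀ s ∈ S, s * s ≠ 1 := by
    intro s hs h
    exact hpow s hs 2 (by norm_num) (by omega) (by rw [pow_two, h])
  -- representatives of the pairs `s, s⁻¹`
  obtain ⟨e, -⟩ : ∃ e : Γ ≃ Fin (Fintype.card Γ), True := ⟨Fintype.equivFin Γ, trivial⟩
  set P : Finset Γ := S.filter fun s => e s < e s⁻¹ with hP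
  have hPS : ∀ s ∈ P, s ∈ S := fun s hs => (Finset.mem_filter.1 hs).1
  have hinv : ∀ s ∈ S, s ≠ s⁻¹ := fun s hs h => h2 s hs (by nth_rewrite 2 [h]; exact mul_inv_cancel s)
  have hPd : ∀ s ∈ P, s⁻¹ ∉ P := by
    intro s hs h
    have h3 := (Finset.mem_filter.1 hs).2
    have h4 := (Finset.mem_filter.1 h).2
    rw [inv_inv] at h4
    exact absurd h3 (not_lt.2 h4.le)
  have hPc : ∀ s ∈ S, s ∈ P ∨ s⁻¹ ∈ P := by
    intro s hs
    rcases lt_or_gt_of_ne (fun h : e s = e s⁻¹ => hinv s hs (e.injective h)) with h | h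
    · exact Or.inl (Finset.mem_filter.2 ⟨hs, h⟩)
    · exact Or.inr (Finset.mem_filter.2 ⟨hS s hs, by rw [inv_inv]; exact h⟩)
  have hcard : S.card = 2 * P.card := by
    have h3 : S = P ∪ P.image (fun s => s⁻¹) := by
      ext s
      rw [Finset.mem_union, Finset.mem_image]
      constructor
      · intro hs
        rcases hPc s hs with h | h
        · exact Or.inl h
        · exact Or.inr ⟨s⁻¹, h, inv_inv s⟩
      · rintro (h | ⟨t, ht, rfl⟩)
        · exact hPS s h
        · exact hS t (hPS t ht)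
    have h4 : Disjoint P (P.image (fun s => s⁻¹)) := by
      rw [Finset.disjoint_left]
      intro s hs h
      obtain ⟨t, ht, rfl⟩ := Finset.mem_image.1 h
      exact hPd t ht hs
    rw [h3, Finset.card_union_of_disjoint h4, Finset.card_image_of_injective _ inv_injective]
    ring
  obtain ⟨k, hk⟩ : ∃ k, k = P.card := ⟨_, rfl⟩
  set g : Fin k ≃ P := (P.equivFin.trans (finCongr hk.symm)).symm with hg
  set σ : Fin k → Equiv.Perm Γ := fun i => Equiv.mulRight (g i : Γ) with hσ
  have happ : ∀ i x, σ i x = x * (g i : Γ) := fun i x => rfl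
  have hgP : ∀ i, (g i : Γ) ∈ P := fun i => (g i).2
  have hgS : ∀ i, (g i : Γ) ∈ S := fun i => hPS _ (hgP i)
  have hmv : ∀ i x, σ i x ≠ x := by
    intro i x h
    rw [happ] at h
    exact h1 _ (hgS i) (mul_eq_left.1 h)
  have h3 : ∀ i, P3 (σ i) := by
    intro i x _ h
    rw [happ, happ, mul_assoc] at h
    exact h2 _ (hgS i) (mul_eq_left.1 h)
  have hd : ∀ i j, i ≠ j → Dj (σ i) (σ j) := by
    intro i j hij x y _ _ h
    rw [happ, happ, Sym2.eq_iff] at h
    rcases h with ⟨h4, h5⟩ | ⟨h4, h5⟩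
    · rw [h4] at h5
      exact hij (g.injective (Subtype.ext (mul_left_cancel h5)))
    · rw [h4, mul_assoc] at h5
      have h6 : (g j : Γ) * (g i : Γ) = 1 := mul_eq_left.1 h5
      have h7 : (g i : Γ) = (g j : Γ)⁻¹ := eq_inv_of_mul_eq_one_right h6
      exact hPd _ (hgP j) (h7 ▸ hgP i)
  have hl : ∀ i, Lg (80 * m) (σ i) := by
    intro i x n _ hn hn2 h
    have h4 : ∀ n : ℕ, ((σ i) ^ n) x = x * (g i : Γ) ^ n := by
      intro n
      induction n with
      | zero => simp
      | succ n ih => rw [pow_succ', Equiv.Perm.mul_apply, ih, happ, mul_assoc, ← pow_succ]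
    rw [h4] at h
    exact hpow _ (hgS i) n hn hn2 (mul_eq_left.1 h)
  have hcov := grpm hm σ h3 hd hl
  have hne : ∀ i x y, chi (σ i) s(x, y) ≠ 0 ↔ (y = x * (g i : Γ)) ∨ x = y * (g i : Γ) := by
    intro i x y
    have h4 : chi (σ i) = arcs (σ i) Finset.univ := rfl
    rw [h4, arcs_ne (h3 i) (fun v _ => hmv i v)]
    simp [happ]
  have hsum : ∀ x y, (∑ i, chi (σ i)) s(x, y) ≠ 0 ↔ G.Adj x y := by
    intro x y
    rw [Finset.sum_apply, hG]
    constructor
    · intro h
      obtain ⟨i, -, hi⟩ := Finset.exists_ne_zero_of_sum_ne_zero h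
      rcases (hne i x y).1 hi with h4 | h4
      · exact ⟨_, hgS i, h4⟩
      · exact ⟨_, hS _ (hgS i), by rw [h4, mul_inv_cancel_right]⟩
    · rintro ⟨s, hs, h4⟩
      obtain ⟨i, hi⟩ : ∃ i, chi (σ i) s(x, y) ≠ 0 := by
        rcases hPc s hs with h5 | h5
        · refine ⟨g.symm ⟨s, h5⟩, (hne _ x y).2 (Or.inl ?_)⟩
          rw [Equiv.apply_symm_apply]
          exact h4
        · refine ⟨g.symm ⟨s⁻¹, h5⟩, (hne _ x y).2 (Or.inr ?_)⟩
          rw [Equiv.apply_symm_apply, h4, mul_inv_cancel_right]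
      rw [Finset.sum_eq_single i]
      · exact hi
      · intro j _ hj
        by_contra h6
        have h7 := hd i j (Ne.symm hj)
        rcases (hne i x y).1 hi with h8 | h8 <;> rcases (hne j x y).1 h6 with h9 | h9
        · exact h7 x x (hmv i x) (hmv j x) (by rw [happ, happ, ← h8, ← h9])
        · exact h7 x y (hmv i x) (hmv j y) (by rw [happ, happ, ← h8, ← h9, Sym2.eq_swap])
        · exact h7 y x (hmv i y) (hmv j x) (by rw [happ, happ, ← h8, ← h9, Sym2.eq_swap])
        · exact h7 y y (hmv i y) (hmv j y) (by rw [happ, happ, ← h8, ← h9])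
      · intro h6
        exact absurd (Finset.mem_univ i) h6
  obtain ⟨L, hL1, hL2, hL3⟩ := cov_parity hcov
  refine ⟨L, ⟨hL2, fun z => ?_⟩, hL1.trans ?_⟩
  · rw [← hL3]
    induction z using Sym2.ind with
    | _ x y => rw [SimpleGraph.mem_edgeSet, hsum]
  · have h5 : (k + m - 1) / m ≤ ⌈(S.card : ℚ) / (2 * m)⌉₊ := by
      have hmq : (0 : ℚ) < 2 * m := by positivity
      have h9 : (S.card : ℚ) ≤ ⌈(S.card : ℚ) / (2 * m)⌉₊ * (2 * m) :=
        (div_le_iff₀ hmq).1 (Nat.le_ceil _)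
      have h10 : S.card ≤ ⌈(S.card : ℚ) / (2 * m)⌉₊ * (2 * m) := by exact_mod_cast h9
      generalize ⌈(S.card : ℚ) / (2 * m)⌉₊ = q at h10 ⊢
      have h11 : k ≤ q * m := by
        have h12 : q * (2 * m) = 2 * (q * m) := by ring
        omega
      rw [Nat.div_le_iff_le_mul_add_pred (by omega)]
      have h13 : m * q = q * m := mul_comm _ _
      omega
    omega

end Pool.Agent.Results.MP_5bc4af_co.CayleyGraphs
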