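import Pool.Agent.H.MP_5bc4af_co.helper5.Final
import Pool.Agent.H.MP_5bc4af_co.L4.Grp
import Pool.Agent.H.MP_5bc4af_co.L4.Gir

/-!
# Cycle odd-covers of Eulerian graphs of large girth
-/

open Pool.Agent.H.MP_5bc4af.H5 Pool.Agent.H.MP_5bc4af.L3 Pool.Agent.H.MP_5bc4af.L4

namespace Pool.Agent.Results.MP_5bc4af_co.LargeGirth

/-- `D` is the edge set of a cycle in the complete graph on `V`: for some `n` there are `n + 3`
distinct vertices `v 0, …, v (n + 2)`, and the edges are the `v i v (i + 1)` (the index `i + 1` is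
taken modulo `n + 3`). -/
def IsCycleEdgeSet {V : Type*} (D : Finset (Sym2 V)) : Prop :=
  ∃ (n : ℕ) (v : Fin (n + 3) → V), Function.Injective v ∧
    ∀ e, e ∈ D ↔ ∃ i, e = s(v i, v (i + 1))

/-- The list `L` of cycles is a cycle odd-cover of `G`: an unordered pair of vertices is an edge
of `G` if and only if it belongs to an odd number of the cycles of `L`. -/
structure IsCycleOddCover {V : Type*} [DecidableEq V] (G : SimpleGraph V)
    (L : List (Finset (Sym2 V))) : Prop where
  cycle : ∀ D ∈ L, IsCycleEdgeSet D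
  odd : ∀ e : Sym2 V, e ∈ G.edgeSet ↔ Odd (L.countP fun D => decide (e ∈ D))

/-- Let `m ≥ 1`. Every finite simple graph `G` all of whose degrees are even and whose girth is at
least `80 m` has a cycle odd-cover with at most `Δ(G) / 2 + ⌈Δ(G) / (2 m)⌉` cycles, where `Δ(G)` is the
maximum degree. (For `2 m ≥ Δ(G)` this is at most `Δ(G) / 2 + 1`.) -/
theorem result (V : Type*) [Fintype V] [DecidableEq V] (G : SimpleGraph V)
    [DecidableRel G.Adj] (hG : ∀ v, Even (G.degree v)) (m : ℕ) (hm : 1 ≤ m)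
    (hg : ((80 * m : ℕ) : ℕ∞) ≤ G.egirth) :
    ∃ L : List (Finset (Sym2 V)), IsCycleOddCover G L ∧
      L.length ≤ G.maxDegree / 2 + ⌈(G.maxDegree : ℚ) / (2 * m)⌉₊ := by
  classical
  set f : Sym2 V → ZMod 2 := fun e => if e ∈ G.edgeSet then 1 else 0 with hf
  have hfe : ∀ e, f e ≠ 0 ↔ e ∈ G.edgeSet := by
    intro e
    rw [hf]
    by_cases h : e ∈ G.edgeSet
    · simp [h]
    · simp [h]
  have hadj : ∀ v w, f s(v, w) = if G.Adj v w then 1 else 0 := by
    intro v w
    rw [hf]
    simp only [SimpleGraph.mem_edgeSet]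
  have hdeg : ∀ v, dg f v = G.degree v := by
    intro v
    unfold dg
    rw [← SimpleGraph.card_neighborFinset_eq_degree]
    congr 1
    ext w
    rw [Finset.mem_filter, SimpleGraph.mem_neighborFinset, hfe, SimpleGraph.mem_edgeSet]
    simp
  have hbd : ∀ v, bd f v = 0 := by
    intro v
    have h1 : bd f v = ((dg f v : ℕ) : ZMod 2) := by
      unfold bd dg
      rw [Finset.card_filter]
      push_cast
      apply Finset.sum_congr rfl
      intro w _
      rw [hadj]
      by_cases h : G.Adj v w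
      · simp [h]
      · simp [h]
    rw [h1, hdeg, ZMod.natCast_eq_zero_iff_even]
    exact hG v
  obtain ⟨k, hk⟩ : ∃ k, k = (G.maxDegree + 1) / 2 := ⟨_, rfl⟩
  have hk2 : ∀ v, dg f v ≤ 2 * k := by
    intro v
    rw [hdeg]
    have h1 := G.degree_le_maxDegree v
    omega
  have hev : Even G.maxDegree := by
    rcases isEmpty_or_nonempty V with hV | hV
    · simp
    · obtain ⟨v, hv⟩ := G.exists_maximal_degree_vertex
      rw [hv]
      exact hG v
  obtain ⟨n, hn⟩ := hev
  have hkm : k = n := by omega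
  obtain ⟨σ, h1, h2, h3, -, h6⟩ := perms f (fun v => by rw [hadj]; simp) hbd k hk2
  have h4 := grpm hm σ h2 h3 (fun j => lg_girth G hg (σ j) (h2 j) fun x hx => by
    have h7 := h6 j x hx
    rw [hadj] at h7
    by_contra h8
    exact h7 (if_neg h8))
  rw [← h1] at h4
  obtain ⟨L, hL1, hL2, hL3⟩ := cov_parity h4
  refine ⟨L, ⟨hL2, fun e => ?_⟩, hL1.trans ?_⟩
  · rw [← hfe, hL3]
  · have h5 : (k + m - 1) / m ≤ ⌈(G.maxDegree : ℚ) / (2 * m)⌉₊ := by
      have hmq : (0 : ℚ) < 2 * m := by positivity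
      have h9 : (G.maxDegree : ℚ) ≤ ⌈(G.maxDegree : ℚ) / (2 * m)⌉₊ * (2 * m) :=
        (div_le_iff₀ hmq).1 (Nat.le_ceil _)
      have h10 : G.maxDegree ≤ ⌈(G.maxDegree : ℚ) / (2 * m)⌉₊ * (2 * m) := by exact_mod_cast h9
      generalize ⌈(G.maxDegree : ℚ) / (2 * m)⌉₊ = q at h10 ⊢
      have h11 : k ≤ q * m := by
        have h12 : q * (2 * m) = 2 * (q * m) := by ring
        omega
      rw [Nat.div_le_iff_le_mul_add_pred (by omega)]
      have h13 : m * q = q * m := mul_comm _ _
      omega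
    have h14 : k = G.maxDegree / 2 := by omega
    omega

end Pool.Agent.Results.MP_5bc4af_co.LargeGirth
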