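import Pool.Agent.H.MP_5bc4af_co.helper5.Final
import Pool.Agent.H.MP_5bc4af_co.L3.Pair
import Pool.Agent.H.MP_5bc4af_co.L3.Cyc

/-!
# Cycle odd-covers: `c₂(G) ≤ ⌈3 Δ(G) / 4⌉` for every Eulerian graph `G`
-/

open Pool.Agent.H.MP_5bc4af.H5 Pool.Agent.H.MP_5bc4af.L3

namespace Pool.Agent.Results.MP_5bc4af_co.ThreeQuarters

/-- `D` is the edge set of a cycle in the complete graph on `V`: for some `n` there are `n + 3`
distinct vertices `v 0, …, v (n + 2)`, and the edges are the `v i v (i + 1)` (the index `i + 1` is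
taken modulo `n + 3`). -/
def IsCycleEdgeSet {V : Type*} (D : Finset (Sym2 V)) : Prop :=
  ∃ (n : ℕ) (v : Fin (n + 3) → V), Function.Injective v ∧
    ∀ e, e ∈ D ↔ ∃ i, e = s(v i, v (i + 1))

/-- The list `L` of cycles is a cycle odd-cover of `G`: an unordered pair of vertices is an edge
of `G` if and only if it belongs to an odd number of the cycles of `L`. -/
structure IsCycleOddCover {V : Type*} [DecidableEq V] (G : SimpleGraph V)
    (L : List (Finset (Sym2 V))) : Prop where
  cycle : ∀ D ∈ L, IsCycleEdgeSet D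
  odd : ∀ e : Sym2 V, e ∈ G.edgeSet ↔ Odd (L.countP fun D => decide (e ∈ D))

/-- Every finite simple graph `G` all of whose degrees are even has a cycle odd-cover with at most
`⌈3 Δ(G) / 4⌉` cycles, where `Δ(G)` is the maximum degree. -/
theorem result (V : Type*) [Fintype V] [DecidableEq V] (G : SimpleGraph V)
    [DecidableRel G.Adj] (hG : ∀ v, Even (G.degree v)) :
    ∃ L : List (Finset (Sym2 V)), IsCycleOddCover G L ∧
      L.length ≤ ⌈(3 * G.maxDegree : ℚ) / 4⌉₊ := by
  classical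
  set f : Sym2 V → ZMod 2 := fun e => if e ∈ G.edgeSet then 1 else 0 with hf
  have hfe : ∀ e, f e ≠ 0 ↔ e ∈ G.edgeSet := by
    intro e
    rw [hf]
    by_cases h : e ∈ G.edgeSet
    · simp [h]
    · simp [h]
  have hadj : ∀ v w, f s(v, w) = if G.Adj v w then 1 else 0 := by
    intro v w
    rw [hf]
    simp only [SimpleGraph.mem_edgeSet]
  have hdeg : ∀ v, dg f v = G.degree v := by
    intro v
    unfold dg
    rw [← SimpleGraph.card_neighborFinset_eq_degree]
    congr 1
    ext w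
    rw [Finset.mem_filter, SimpleGraph.mem_neighborFinset, hfe, SimpleGraph.mem_edgeSet]
    simp
  have hbd : ∀ v, bd f v = 0 := by
    intro v
    have h1 : bd f v = ((dg f v : ℕ) : ZMod 2) := by
      unfold bd dg
      rw [Finset.card_filter]
      push_cast
      apply Finset.sum_congr rfl
      intro w _
      rw [hadj]
      by_cases h : G.Adj v w
      · simp [h]
      · simp [h]
    rw [h1, hdeg, ZMod.natCast_eq_zero_iff_even]
    exact hG v
  obtain ⟨k, hk⟩ : ∃ k, k = (G.maxDegree + 1) / 2 := ⟨_, rfl⟩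
  have hk2 : ∀ v, dg f v ≤ 2 * k := by
    intro v
    rw [hdeg]
    have h1 := G.degree_le_maxDegree v
    omega
  have hev : Even G.maxDegree := by
    rcases isEmpty_or_nonempty V with hV | hV
    · simp
    · obtain ⟨v, hv⟩ := G.exists_maximal_degree_vertex
      rw [hv]
      exact hG v
  obtain ⟨m, hm⟩ := hev
  have hkm : k = m := by omega
  obtain ⟨σ, h1, h2, h3, -, -⟩ := perms f (fun v => by rw [hadj]; simp) hbd k hk2
  have h4 := group k σ h2 h3
  rw [← h1] at h4
  obtain ⟨L, hL1, hL2, hL3⟩ := cov_parity h4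
  refine ⟨L, ⟨hL2, fun e => ?_⟩, ?_⟩
  · rw [← hfe, hL3]
  · refine hL1.trans ?_
    have h5 : ((3 * k + 1) / 2 : ℕ) < ⌈(3 * G.maxDegree : ℚ) / 4⌉₊ + 1 := by
      rw [Nat.lt_succ_iff]
      by_contra hc
      push Not at hc
      have h6 : (3 * G.maxDegree : ℚ) / 4 ≤ (⌈(3 * G.maxDegree : ℚ) / 4⌉₊ : ℚ) := Nat.le_ceil _
      have h7 : (3 * (G.maxDegree : ℚ)) ≤ 4 * (⌈(3 * G.maxDegree : ℚ) / 4⌉₊ : ℚ) := by linarith
      have h8 : 3 * G.maxDegree ≤ 4 * ⌈(3 * G.maxDegree : ℚ) / 4⌉₊ := by exact_mod_cast h7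
      omega
    omega

end Pool.Agent.Results.MP_5bc4af_co.ThreeQuarters
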